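import Pool.Agent.Helper42.VR.Pow.Defs

/-!
# Powers of two: the covering with blocks of four (block Q4)
-/

set_option autoImplicit false

namespace Pool.Agent.Helper42.VR

open Finset

namespace BlocksAux

/-- A covering with total weight `a` instead of one. -/
def SCov (κ : Type) [Fintype κ] (D a : ℝ) (y : κ → ℝ) : Prop :=
  ∃ (J : Type) (_ : Fintype J) (w : J → ℝ) (v : J → κ → ℝ), (∀ j, 0 ≤ w j) ∧ ∑ j, w j = a ∧
    (∀ j i, v j i = 1 ∨ v j i = -1) ∧ (∀ i, ∑ j, w j * v j i = y i) ∧
    ∀ j j', w j ≠ 0 → w j' ≠ 0 → -D ≤ ∑ i, v j i * v j' i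

theorem scov_scale {κ : Type} [Fintype κ] {D a : ℝ} {y : κ → ℝ} (ha : 0 ≤ a)
    (hy : ∀ i, |y i| ≤ a) (h : 0 < a → Cov κ D (fun i => y i / a)) : SCov κ D a y := by
  rcases ha.eq_or_lt with h0 | h0
  · refine ⟨Empty, inferInstance, fun _ => 0, fun _ _ => 1, fun _ => le_rfl, by simp [← h0],
      fun j => j.elim, fun i => ?_, fun j => j.elim⟩
    have h1 := hy i
    rw [← h0] at h1
    have h2 : y i = 0 := abs_nonpos_iff.1 h1
    simp [h2]
  · obtain ⟨J, hJ, w, v, h1, h2, h3, h4, h5⟩ := h h0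
    refine ⟨J, hJ, fun j => a * w j, v, fun j => mul_nonneg ha (h1 j), ?_, h3, fun i => ?_,
      fun j j' hj hj' => h5 j j' (right_ne_zero_of_mul hj) (right_ne_zero_of_mul hj')⟩
    · rw [← Finset.mul_sum, h2, mul_one]
    · have h6 : ∑ j, a * w j * v j i = a * ∑ j, w j * v j i := by
        rw [Finset.mul_sum]
        exact Finset.sum_congr rfl fun j _ => by ring
      rw [h6, h4 i]
      field_simp

theorem scov_of_T {N : ℕ} (hT : T N) {κ : Type} [Fintype κ] (hκ : Fintype.card κ + 1 = N)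
    {a : ℝ} {y : κ → ℝ} (ha : 0 ≤ a) (hy : ∀ i, |y i| ≤ a) : SCov κ 1 a y := by
  refine scov_scale ha hy fun h0 => hT κ hκ _ fun i => ?_
  rw [abs_div, abs_of_pos h0]
  exact (div_le_one h0).2 (hy i)

/-- One coordinate of modulus `a`: the inner products are nonnegative. -/
theorem scov_of_T' {N : ℕ} (hT : T N) {κ : Type} [Fintype κ] (hκ : Fintype.card κ = N)
    {a : ℝ} {y : κ → ℝ} (ha : 0 ≤ a) (hy : ∀ i, |y i| ≤ a) (o : κ) (ho : |y o| = a) :
    SCov κ 0 a y := by
  classical
  refine scov_scale ha hy fun h0 => ?_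
  have h1 : Cov {i : κ // ¬ i = o} 1 (fun i => y i / a) := by
    refine hT _ ?_ _ fun i => ?_
    · have h2 := Fintype.card_subtype_compl (fun i : κ => i = o)
      rw [Fintype.card_subtype_eq] at h2
      have h3 : 0 < Fintype.card κ := Fintype.card_pos_iff.2 ⟨o⟩
      rw [h2]
      omega
    · rw [abs_div, abs_of_pos h0]
      exact (div_le_one h0).2 (hy i)
  have h2 : Cov {i : κ // i = o} (-1) (fun i => y i / a) := by
    have h3 : y o / a = 1 ∨ y o / a = -1 := by
      rcases abs_choice (y o) with h | h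
      · left
        rw [← h, ho]
        exact div_self h0.ne'
      · right
        have : y o = -a := by rw [← ho, h]; ring
        rw [this, neg_div, div_self h0.ne']
    refine ⟨Unit, inferInstance, fun _ => 1, fun _ _ => y o / a, fun _ => zero_le_one, by simp,
      fun _ _ => h3, fun i => ?_, fun _ _ _ _ => ?_⟩
    · obtain ⟨i, rfl⟩ := i
      simp
    · have h4 : y o / a * (y o / a) = 1 := by
        rcases h3 with h | h <;> rw [h] <;> norm_num
      simp only [h4]
      simp
  have h3 := Cov.split (y := fun i => y i / a) (fun i => i = o) (Cov.inst _ _ h2) (Cov.inst _ _ h1)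
  have h4 : (-1 : ℝ) + 1 = 0 := by norm_num
  rw [h4] at h3
  exact h3

theorem sum_blocks {ι : Type} [Fintype ι] (p : Fin 3 → ℝ) (r : ι × Fin 4 → ℝ) (p' : Fin 3 → ℝ)
    (r' : ι × Fin 4 → ℝ) :
    ∑ o : Fin 3 ⊕ (ι × Fin 4), Sum.elim p r o * Sum.elim p' r' o =
      p 0 * p' 0 + p 1 * p' 1 + p 2 * p' 2 +
        ∑ i, (r (i, 0) * r' (i, 0) + r (i, 1) * r' (i, 1) + r (i, 2) * r' (i, 2) +
          r (i, 3) * r' (i, 3)) := by
  rw [Fintype.sum_sum_type]
  simp only [Sum.elim_inl, Sum.elim_inr]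
  rw [Fin.sum_univ_three, Fintype.sum_prod_type]
  simp only [Fin.sum_univ_four]

/-- The maximal modulus of a family. -/
theorem exists_max {ι : Type} [Fintype ι] (f : Option ι → ℝ) :
    ∃ o, ∀ o', |f o'| ≤ |f o| := by
  obtain ⟨o, -, ho⟩ := Finset.exists_max_image (univ : Finset (Option ι)) (fun o => |f o|)
    ⟨none, mem_univ _⟩
  exact ⟨o, fun o' => ho o' (mem_univ _)⟩

/-- The family of a special coordinate `e` and block means `α`. -/
theorem exists_part {N : ℕ} (hT : T N) {ι : Type} [Fintype ι] (hι : Fintype.card ι + 1 = N)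
    (e A : ℝ) (α : ι → ℝ) (he : |e| ≤ 1) (hα : ∀ i, |α i| ≤ A) (hA : 1 - e ≤ 2 * A) :
    ∃ a, 0 ≤ a ∧ a ≤ A ∧ SCov (Option ι) 0 a (fun o => o.elim (e - 1 + a) α) := by
  have he2 := (abs_le.1 he).2
  obtain ⟨o, ho⟩ := exists_max (fun o : Option ι => o.elim ((1 - e) / 2) α)
  set a := |(fun o : Option ι => o.elim ((1 - e) / 2) α) o| with ha
  have h0 : 0 ≤ a := abs_nonneg _
  have hn : (1 - e) / 2 ≤ a := by
    have h1 := ho none
    simp only [Option.elim_none] at h1
    exact (le_abs_self _).trans h1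
  have hs : ∀ i, |α i| ≤ a := fun i => ho (some i)
  refine ⟨a, h0, ?_, ?_⟩
  · rcases o with _ | i
    · rw [ha]
      simp only [Option.elim_none]
      rw [abs_of_nonneg (by linarith)]
      linarith
    · exact hα i
  · refine scov_of_T' hT (by rw [Fintype.card_option]; exact hι) h0 (fun o' => ?_) o ?_
    · rcases o' with _ | i
      · show |e - 1 + a| ≤ a
        rw [abs_le]
        constructor <;> linarith
      · exact hs i
    · rcases o with _ | i
      · show |e - 1 + a| = a
        have h1 : a = (1 - e) / 2 := by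
          rw [ha]
          simp only [Option.elim_none]
          exact abs_of_nonneg (by linarith)
        have h2 : e - 1 + a = -a := by rw [h1]; ring
        rw [h2, abs_neg, abs_of_nonneg h0]
      · rfl

end BlocksAux

open BlocksAux

/-- **Block Q4.** -/
theorem cov_blocks {N : ℕ} (hT : T N) (hT2 : T (2 * N)) {ι : Type} [Fintype ι]
    (hι : Fintype.card ι + 1 = N) (e : Fin 3 → ℝ) (g : ι → Fin 4 → ℝ) (A B C : ℝ)
    (he : ∀ i, |e i| ≤ 1) (hA : ∀ i, |g i 0 + g i 1 + g i 2 + g i 3| ≤ 4 * A)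
    (hA' : 1 - e 1 ≤ 2 * A) (hB : ∀ i, |g i 0 + g i 1 - g i 2 - g i 3| ≤ 4 * B)
    (hB' : 1 - e 0 ≤ 2 * B) (hC : ∀ i, |g i 0 - g i 1| ≤ 2 * C ∧ |g i 2 - g i 3| ≤ 2 * C)
    (hC' : 1 - e 2 ≤ 2 * C) (h : A + B + C ≤ 1) :
    Cov (Fin 3 ⊕ (ι × Fin 4)) 1 (Sum.elim e (fun q => g q.1 q.2)) := by
  obtain ⟨a, ha0, haA, JA, iA, wA, vA, hA1, hA2, hA3, hA4, hA5⟩ := exists_part hT hι (e 1) A
    (fun i => (g i 0 + g i 1 + g i 2 + g i 3) / 4) (he 1) (fun i => by
      rw [abs_div, abs_of_pos (by norm_num : (0 : ℝ) < 4)]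
      linarith [hA i]) hA'
  obtain ⟨b, hb0, hbB, JB, iB, wB, vB, hB1, hB2, hB3, hB4, hB5⟩ := exists_part hT hι (e 0) B
    (fun i => (g i 0 + g i 1 - g i 2 - g i 3) / 4) (he 0) (fun i => by
      rw [abs_div, abs_of_pos (by norm_num : (0 : ℝ) < 4)]
      linarith [hB i]) hB'
  have he2 := (abs_le.1 (he 2)).2
  have hc0 : 0 ≤ 1 - a - b := by linarith
  obtain ⟨JC, iC, wC, vC, hC1, hC2, hC3, hC4, hC5⟩ := scov_of_T hT2
    (κ := Option (ι ⊕ ι)) (by rw [Fintype.card_option, Fintype.card_sum]; omega)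
    (a := 1 - a - b) (y := fun o => o.elim (e 2 - 1 + (1 - a - b))
      (Sum.elim (fun i => (g i 0 - g i 1) / 2) (fun i => (g i 2 - g i 3) / 2))) hc0 (by
      rintro (_ | i | i)
      · show |e 2 - 1 + (1 - a - b)| ≤ 1 - a - b
        rw [abs_le]
        constructor <;> linarith
      · show |(g i 0 - g i 1) / 2| ≤ 1 - a - b
        rw [abs_div, abs_of_pos (by norm_num : (0 : ℝ) < 2)]
        linarith [(hC i).1]
      · show |(g i 2 - g i 3) / 2| ≤ 1 - a - b
        rw [abs_div, abs_of_pos (by norm_num : (0 : ℝ) < 2)]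
        linarith [(hC i).2])
  have hA6 : ∑ j, wA j * vA j none = e 1 - 1 + a := hA4 none
  have hA7 : ∀ i, ∑ j, wA j * vA j (some i) = (g i 0 + g i 1 + g i 2 + g i 3) / 4 :=
    fun i => hA4 (some i)
  have hB6 : ∑ j, wB j * vB j none = e 0 - 1 + b := hB4 none
  have hB7 : ∀ i, ∑ j, wB j * vB j (some i) = (g i 0 + g i 1 - g i 2 - g i 3) / 4 :=
    fun i => hB4 (some i)
  have hC6 : ∑ j, wC j * vC j none = e 2 - 1 + (1 - a - b) := hC4 none
  have hC7 : ∀ i, ∑ j, wC j * vC j (some (Sum.inl i)) = (g i 0 - g i 1) / 2 :=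
    fun i => hC4 (some (Sum.inl i))
  have hC8 : ∀ i, ∑ j, wC j * vC j (some (Sum.inr i)) = (g i 2 - g i 3) / 2 :=
    fun i => hC4 (some (Sum.inr i))
  -- the three kinds of vectors
  let VA : JA → Fin 3 ⊕ (ι × Fin 4) → ℝ := fun j => Sum.elim ![1, vA j none, 1]
    (fun q => vA j (some q.1))
  let VB : JB → Fin 3 ⊕ (ι × Fin 4) → ℝ := fun j => Sum.elim ![vB j none, 1, 1]
    (fun q => (![vB j (some q.1), vB j (some q.1), -vB j (some q.1), -vB j (some q.1)] :
      Fin 4 → ℝ) q.2)
  let VC : JC → Fin 3 ⊕ (ι × Fin 4) → ℝ := fun j => Sum.elim ![1, 1, vC j none]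
    (fun q => (![vC j (some (Sum.inl q.1)), -vC j (some (Sum.inl q.1)),
      vC j (some (Sum.inr q.1)), -vC j (some (Sum.inr q.1))] : Fin 4 → ℝ) q.2)
  have sgn : ∀ {x y : ℝ}, (x = 1 ∨ x = -1) → (y = 1 ∨ y = -1) → -1 ≤ x * y ∧ x * y ≤ 1 := by
    intro x y hx hy
    rcases hx with rfl | rfl <;> rcases hy with rfl | rfl <;> norm_num
  have sg1 : ∀ {x : ℝ}, (x = 1 ∨ x = -1) → -1 ≤ x := by
    intro x hx
    rcases hx with rfl | rfl <;> norm_num
  have neg : ∀ {x : ℝ}, (x = 1 ∨ x = -1) → (-x = 1 ∨ -x = -1) := by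
    intro x hx
    rcases hx with rfl | rfl <;> norm_num
  have AA : ∀ j j', wA j ≠ 0 → wA j' ≠ 0 → -1 ≤ ∑ o, VA j o * VA j' o := by
    intro j j' hj hj'
    have h1 := hA5 j j' hj hj'
    rw [Fintype.sum_option] at h1
    have h2 := sgn (hA3 j none) (hA3 j' none)
    have h0 : ∑ o, VA j o * VA j' o = 1 * 1 + vA j none * vA j' none + 1 * 1 +
        ∑ i : ι, (vA j (some i) * vA j' (some i) + vA j (some i) * vA j' (some i) +
          vA j (some i) * vA j' (some i) + vA j (some i) * vA j' (some i)) := sum_blocks _ _ _ _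
    have h3 : ∑ i : ι, (vA j (some i) * vA j' (some i) + vA j (some i) * vA j' (some i) +
        vA j (some i) * vA j' (some i) + vA j (some i) * vA j' (some i)) =
        4 * ∑ i : ι, vA j (some i) * vA j' (some i) := by
      rw [Finset.mul_sum]
      exact Finset.sum_congr rfl fun i _ => by ring
    rw [h0, h3]
    linarith
  have BB : ∀ j j', wB j ≠ 0 → wB j' ≠ 0 → -1 ≤ ∑ o, VB j o * VB j' o := by
    intro j j' hj hj'
    have h1 := hB5 j j' hj hj'
    rw [Fintype.sum_option] at h1
    have h2 := sgn (hB3 j none) (hB3 j' none)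
    have h0 : ∑ o, VB j o * VB j' o = vB j none * vB j' none + 1 * 1 + 1 * 1 +
        ∑ i : ι, (vB j (some i) * vB j' (some i) + vB j (some i) * vB j' (some i) +
          -vB j (some i) * -vB j' (some i) + -vB j (some i) * -vB j' (some i)) :=
      sum_blocks _ _ _ _
    have h3 : ∑ i : ι, (vB j (some i) * vB j' (some i) + vB j (some i) * vB j' (some i) +
        -vB j (some i) * -vB j' (some i) + -vB j (some i) * -vB j' (some i)) =
        4 * ∑ i : ι, vB j (some i) * vB j' (some i) := by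
      rw [Finset.mul_sum]
      exact Finset.sum_congr rfl fun i _ => by ring
    rw [h0, h3]
    linarith
  have CC : ∀ j j', wC j ≠ 0 → wC j' ≠ 0 → -1 ≤ ∑ o, VC j o * VC j' o := by
    intro j j' hj hj'
    have h1 := hC5 j j' hj hj'
    rw [Fintype.sum_option, Fintype.sum_sum_type] at h1
    have h2 := sgn (hC3 j none) (hC3 j' none)
    have h0 : ∑ o, VC j o * VC j' o = 1 * 1 + 1 * 1 + vC j none * vC j' none +
        ∑ i : ι, (vC j (some (Sum.inl i)) * vC j' (some (Sum.inl i)) +
          -vC j (some (Sum.inl i)) * -vC j' (some (Sum.inl i)) +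
          vC j (some (Sum.inr i)) * vC j' (some (Sum.inr i)) +
          -vC j (some (Sum.inr i)) * -vC j' (some (Sum.inr i))) := sum_blocks _ _ _ _
    have h3 : ∑ i : ι, (vC j (some (Sum.inl i)) * vC j' (some (Sum.inl i)) +
          -vC j (some (Sum.inl i)) * -vC j' (some (Sum.inl i)) +
          vC j (some (Sum.inr i)) * vC j' (some (Sum.inr i)) +
          -vC j (some (Sum.inr i)) * -vC j' (some (Sum.inr i))) =
        2 * ∑ i : ι, vC j (some (Sum.inl i)) * vC j' (some (Sum.inl i)) +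
        2 * ∑ i : ι, vC j (some (Sum.inr i)) * vC j' (some (Sum.inr i)) := by
      rw [Finset.mul_sum, Finset.mul_sum, ← Finset.sum_add_distrib]
      exact Finset.sum_congr rfl fun i _ => by ring
    rw [h0, h3]
    linarith
  have AB : ∀ j j', -1 ≤ ∑ o, VA j o * VB j' o := by
    intro j j'
    have h1 := sg1 (hA3 j none)
    have h2 := sg1 (hB3 j' none)
    have h0 : ∑ o, VA j o * VB j' o = 1 * vB j' none + vA j none * 1 + 1 * 1 +
        ∑ i : ι, (vA j (some i) * vB j' (some i) + vA j (some i) * vB j' (some i) +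
          vA j (some i) * -vB j' (some i) + vA j (some i) * -vB j' (some i)) :=
      sum_blocks _ _ _ _
    have h3 : ∑ i : ι, (vA j (some i) * vB j' (some i) + vA j (some i) * vB j' (some i) +
          vA j (some i) * -vB j' (some i) + vA j (some i) * -vB j' (some i)) = 0 :=
      Finset.sum_eq_zero fun i _ => by ring
    rw [h0, h3]
    linarith
  have AC : ∀ j j', -1 ≤ ∑ o, VA j o * VC j' o := by
    intro j j'
    have h1 := sg1 (hA3 j none)
    have h2 := sg1 (hC3 j' none)
    have h0 : ∑ o, VA j o * VC j' o = 1 * 1 + vA j none * 1 + 1 * vC j' none +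
        ∑ i : ι, (vA j (some i) * vC j' (some (Sum.inl i)) +
          vA j (some i) * -vC j' (some (Sum.inl i)) +
          vA j (some i) * vC j' (some (Sum.inr i)) +
          vA j (some i) * -vC j' (some (Sum.inr i))) := sum_blocks _ _ _ _
    have h3 : ∑ i : ι, (vA j (some i) * vC j' (some (Sum.inl i)) +
          vA j (some i) * -vC j' (some (Sum.inl i)) +
          vA j (some i) * vC j' (some (Sum.inr i)) +
          vA j (some i) * -vC j' (some (Sum.inr i))) = 0 :=
      Finset.sum_eq_zero fun i _ => by ring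
    rw [h0, h3]
    linarith
  have BC : ∀ j j', -1 ≤ ∑ o, VB j o * VC j' o := by
    intro j j'
    have h1 := sg1 (hB3 j none)
    have h2 := sg1 (hC3 j' none)
    have h0 : ∑ o, VB j o * VC j' o = vB j none * 1 + 1 * 1 + 1 * vC j' none +
        ∑ i : ι, (vB j (some i) * vC j' (some (Sum.inl i)) +
          vB j (some i) * -vC j' (some (Sum.inl i)) +
          -vB j (some i) * vC j' (some (Sum.inr i)) +
          -vB j (some i) * -vC j' (some (Sum.inr i))) := sum_blocks _ _ _ _
    have h3 : ∑ i : ι, (vB j (some i) * vC j' (some (Sum.inl i)) +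
          vB j (some i) * -vC j' (some (Sum.inl i)) +
          -vB j (some i) * vC j' (some (Sum.inr i)) +
          -vB j (some i) * -vC j' (some (Sum.inr i))) = 0 :=
      Finset.sum_eq_zero fun i _ => by ring
    rw [h0, h3]
    linarith
  have swap : ∀ (p q : Fin 3 ⊕ (ι × Fin 4) → ℝ), ∑ o, p o * q o = ∑ o, q o * p o :=
    fun p q => Finset.sum_congr rfl fun o _ => mul_comm _ _
  refine ⟨JA ⊕ (JB ⊕ JC), inferInstance, Sum.elim wA (Sum.elim wB wC),
    Sum.elim VA (Sum.elim VB VC), ?_, ?_, ?_, ?_, ?_⟩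
  · rintro (j | j | j)
    · exact hA1 j
    · exact hB1 j
    · exact hC1 j
  · simp only [Fintype.sum_sum_type, Sum.elim_inl, Sum.elim_inr]
    rw [hA2, hB2, hC2]
    ring
  · rintro (j | j | j) (i | ⟨i, k⟩)
    · fin_cases i
      · exact Or.inl rfl
      · exact hA3 j none
      · exact Or.inl rfl
    · exact hA3 j (some i)
    · fin_cases i
      · exact hB3 j none
      · exact Or.inl rfl
      · exact Or.inl rfl
    · fin_cases k
      · exact hB3 j (some i)
      · exact hB3 j (some i)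
      · exact neg (hB3 j (some i))
      · exact neg (hB3 j (some i))
    · fin_cases i
      · exact Or.inl rfl
      · exact Or.inl rfl
      · exact hC3 j none
    · fin_cases k
      · exact hC3 j (some (Sum.inl i))
      · exact neg (hC3 j (some (Sum.inl i)))
      · exact hC3 j (some (Sum.inr i))
      · exact neg (hC3 j (some (Sum.inr i)))
  · have ng : ∀ {J : Type} [Fintype J] (w v : J → ℝ), ∑ j, w j * -v j = -∑ j, w j * v j := by
      intro J _ w v
      rw [← Finset.sum_neg_distrib]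
      exact Finset.sum_congr rfl fun j _ => by ring
    rintro (i | ⟨i, k⟩)
    · simp only [Fintype.sum_sum_type, Sum.elim_inl, Sum.elim_inr, VA, VB, VC]
      fin_cases i
      · show ∑ j, wA j * 1 + (∑ j, wB j * vB j none + ∑ j, wC j * 1) = e 0
        simp only [mul_one]
        rw [hA2, hB6, hC2]
        ring
      · show ∑ j, wA j * vA j none + (∑ j, wB j * 1 + ∑ j, wC j * 1) = e 1
        simp only [mul_one]
        rw [hA6, hB2, hC2]
        ring
      · show ∑ j, wA j * 1 + (∑ j, wB j * 1 + ∑ j, wC j * vC j none) = e 2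
        simp only [mul_one]
        rw [hA2, hB2, hC6]
        ring
    · simp only [Fintype.sum_sum_type, Sum.elim_inl, Sum.elim_inr, VA, VB, VC]
      fin_cases k
      · show ∑ j, wA j * vA j (some i) + (∑ j, wB j * vB j (some i) +
          ∑ j, wC j * vC j (some (Sum.inl i))) = g i 0
        rw [hA7, hB7, hC7]
        ring
      · show ∑ j, wA j * vA j (some i) + (∑ j, wB j * vB j (some i) +
          ∑ j, wC j * -vC j (some (Sum.inl i))) = g i 1
        rw [ng wC (fun j => vC j (some (Sum.inl i))), hA7, hB7, hC7]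
        ring
      · show ∑ j, wA j * vA j (some i) + (∑ j, wB j * -vB j (some i) +
          ∑ j, wC j * vC j (some (Sum.inr i))) = g i 2
        rw [ng wB (fun j => vB j (some i)), hA7, hB7, hC8]
        ring
      · show ∑ j, wA j * vA j (some i) + (∑ j, wB j * -vB j (some i) +
          ∑ j, wC j * -vC j (some (Sum.inr i))) = g i 3
        rw [ng wB (fun j => vB j (some i)), ng wC (fun j => vC j (some (Sum.inr i))), hA7, hB7,
          hC8]
        ring
  · rintro (j | j | j) (j' | j' | j') hj hj'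
    · exact AA j j' hj hj'
    · exact AB j j'
    · exact AC j j'
    · refine le_trans (AB j' j) (le_of_eq (swap _ _))
    · exact BB j j' hj hj'
    · exact BC j j'
    · refine le_trans (AC j' j) (le_of_eq (swap _ _))
    · refine le_trans (BC j' j) (le_of_eq (swap _ _))
    · exact CC j j' hj hj'

end Pool.Agent.Helper42.VR
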