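import Pool.Agent.Helper42.VR.Pow.Step

/-!
# Four special coordinates; doubling without the half (blocks F3, F4)
-/

set_option autoImplicit false

namespace Pool.Agent.Helper42.VR

open Finset

/-- Four coordinates, at most one entry `-1`. -/
theorem cov_four (e : Fin 4 → ℝ) (he : ∀ i, e i ≤ 1) (hs : 2 ≤ ∑ i, e i) :
    Cov (Fin 4) 0 e := by
  refine ⟨Option (Fin 4), inferInstance, fun o => o.elim (1 - ∑ i, (1 - e i) / 2)
    (fun i => (1 - e i) / 2), fun o k => o.elim 1 (fun i => if k = i then -1 else 1),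
    ?_, ?_, ?_, ?_, ?_⟩
  · rintro (_ | i)
    · show 0 ≤ 1 - ∑ i, (1 - e i) / 2
      have : ∑ i, (1 - e i) / 2 = (4 - ∑ i, e i) / 2 := by
        rw [← Finset.sum_div, Finset.sum_sub_distrib]
        simp
      rw [this]
      linarith
    · show 0 ≤ (1 - e i) / 2
      linarith [he i]
  · rw [Fintype.sum_option]
    simp
  · rintro (_ | i) k
    · exact Or.inl rfl
    · show (if k = i then (-1 : ℝ) else 1) = 1 ∨ (if k = i then (-1 : ℝ) else 1) = -1
      split_ifs
      · exact Or.inr rfl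
      · exact Or.inl rfl
  · intro k
    rw [Fintype.sum_option]
    simp only [Option.elim_none, Option.elim_some, mul_one]
    have h1 : ∀ i : Fin 4, (1 - e i) / 2 * (if k = i then (-1 : ℝ) else 1) =
        (1 - e i) / 2 - (if k = i then 1 - e i else 0) := by
      intro i
      split_ifs <;> ring
    simp only [h1]
    rw [Finset.sum_sub_distrib, Finset.sum_ite_eq Finset.univ k]
    simp
  · rintro (_ | i) (_ | j) - -
    · simp
    · show -(0 : ℝ) ≤ ∑ k : Fin 4, (1 : ℝ) * (if k = j then -1 else 1)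
      fin_cases j <;> simp [Fin.sum_univ_four] <;> norm_num
    · show -(0 : ℝ) ≤ ∑ k : Fin 4, (if k = i then (-1 : ℝ) else 1) * 1
      fin_cases i <;> simp [Fin.sum_univ_four] <;> norm_num
    · show -(0 : ℝ) ≤ ∑ k : Fin 4, (if k = i then (-1 : ℝ) else 1) * (if k = j then -1 else 1)
      fin_cases i <;> fin_cases j <;> simp [Fin.sum_univ_four] <;> norm_num

/-- **Block F3.** -/
theorem match_four {N : ℕ} (hN : 1 ≤ N) (hT : T N) {x : ℕ → ℝ} (h0 : ∀ n, 0 ≤ x n)
    (h1 : ∀ n, x n ≤ 1) (hs : 2 ≤ x 1 + x 2 + x 3 + x 4) :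
    Cov (Fin (N + 3)) 1 (fun i => x (i + 1)) := by
  have habs : ∀ n, |x n| ≤ 1 := fun n => by rw [abs_of_nonneg (h0 n)]; exact h1 n
  have h2 : Cov (Fin 4) 0 (fun i => x (i + 1)) := by
    refine cov_four _ (fun i => h1 _) ?_
    rw [Fin.sum_univ_four]
    have e0 : x (((0 : Fin 4) : ℕ) + 1) = x 1 := rfl
    have e1 : x (((1 : Fin 4) : ℕ) + 1) = x 2 := rfl
    have e2 : x (((2 : Fin 4) : ℕ) + 1) = x 3 := rfl
    have e3 : x (((3 : Fin 4) : ℕ) + 1) = x 4 := rfl
    rw [e0, e1, e2, e3]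
    exact hs
  have h3 : Cov (Fin (N - 1)) 1 (fun i => x (5 + i)) :=
    hT (Fin (N - 1)) (by rw [Fintype.card_fin]; omega) _ fun i => habs _
  have h4 := cov_sum93 h2 h3
  rw [zero_add] at h4
  refine cov_of_pos (α := Fin 4 ⊕ Fin (N - 1))
    (Sum.elim (fun i => (i : ℕ) + 1) (fun i => 5 + (i : ℕ))) ?_ ?_ ?_ ?_ ?_
  · rintro (a | a) (b | b) hab
    · have h5 : (a : ℕ) + 1 = b + 1 := hab
      rw [Fin.ext (by omega : (a : ℕ) = b)]
    · have h5 : (a : ℕ) + 1 = 5 + b := hab
      have := a.2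
      omega
    · have h5 : 5 + (a : ℕ) = b + 1 := hab
      have := b.2
      omega
    · have h5 : 5 + (a : ℕ) = 5 + b := hab
      rw [Fin.ext (by omega : (a : ℕ) = b)]
  · rintro (a | a)
    · show 1 ≤ (a : ℕ) + 1
      omega
    · show 1 ≤ 5 + (a : ℕ)
      omega
  · rintro (a | a)
    · show (a : ℕ) + 1 ≤ N + 3
      have := a.2
      omega
    · show 5 + (a : ℕ) ≤ N + 3
      have := a.2
      omega
  · rw [Fintype.card_sum, Fintype.card_fin, Fintype.card_fin]
    omega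
  · have h5 : (fun a : Fin 4 ⊕ Fin (N - 1) =>
        x (Sum.elim (fun i : Fin 4 => (i : ℕ) + 1) (fun i : Fin (N - 1) => 5 + (i : ℕ)) a)) =
        Sum.elim (fun i : Fin 4 => x ((i : ℕ) + 1)) (fun i : Fin (N - 1) => x (5 + (i : ℕ))) := by
      funext a
      rcases a with a | a <;> rfl
    rw [h5]
    exact h4

/-- **Block F4**: doubling without the half. -/
theorem T_double {N : ℕ} (hN : 4 ≤ N) (h : T N) (h' : T (2 * N - 4)) : T (2 * N) := by
  refine T_of_sorted (by omega) fun x hx h0 h1 => ?_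
  rcases le_or_gt 2 (x 1 + x 2 + x 3 + x 4) with hs | hs
  · have h2 := match_four (by omega) h' h0 h1 hs
    rw [show 2 * N - 4 + 3 = 2 * N - 1 by omega] at h2
    exact h2
  · refine match_std h (by omega) hx h0 h1 fun k hk hk' => ?_
    rcases Nat.lt_or_ge 1 k with h2 | h2
    · have e1 : x (2 * k) ≤ x 4 := hx (by omega)
      have e2 := h0 1
      have e3 := h0 (2 * k + 1)
      linarith
    · obtain rfl : k = 1 := by omega
      have := h1 2
      norm_num
      linarith

/-- The statement of `cov_frame12` and `cov_frame20`. -/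
theorem T_of_frame {N : ℕ} (hN : 5 ≤ N) (hT : T (N - 4))
    (hF : ∀ x : ℕ → ℝ, Antitone x → (∀ k, 0 ≤ x k) → (∀ k, x k ≤ 1) →
      x 1 + x 2 + x 3 + x 4 ≤ 2 → Cov (Fin (N - 1)) 1 (fun i => x (i + 1))) : T N := by
  refine T_of_sorted (by omega) fun x hx h0 h1 => ?_
  rcases le_or_gt 2 (x 1 + x 2 + x 3 + x 4) with hs | hs
  · have h2 := match_four (by omega) hT h0 h1 hs
    rw [show N - 4 + 3 = N - 1 by omega] at h2
    exact h2
  · exact hF x hx h0 h1 hs.le

/-- From `T 12` and `T 20`. -/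
theorem T_three_of (h12 : T 12) (h20 : T 20) (k : ℕ) : T (12 * 2 ^ k) := by
  have h24 : T 24 := T_double (N := 12) (by norm_num) h12 h20
  have key : ∀ k, T (12 * 2 ^ k) ∧ T (12 * 2 ^ (k + 1)) := by
    intro k
    induction k with
    | zero => exact ⟨h12, h24⟩
    | succ k ih =>
      refine ⟨ih.2, ?_⟩
      have h1 : T (2 * (6 * 2 ^ k)) := by
        have h := ih.1
        rwa [show 12 * 2 ^ k = 2 * (6 * 2 ^ k) by ring] at h
      have h2 : T (4 * (6 * 2 ^ k)) := by
        have h := ih.2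
        rwa [show 12 * 2 ^ (k + 1) = 4 * (6 * 2 ^ k) by ring] at h
      have h3 := T_step (a := 6 * 2 ^ k) (by
        right
        have : 1 ≤ 2 ^ k := Nat.one_le_two_pow
        omega) h1 h2
      rwa [show 8 * (6 * 2 ^ k) = 12 * 2 ^ (k + 1 + 1) by ring] at h3
  exact (key k).1

end Pool.Agent.Helper42.VR
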