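import Pool.Agent.Helper76.VR.Three

/-!
# Three special coordinates and pairs: `T N`, `T (N - 4)`, `T (2 N - 8)` imply `T (2 N)`
-/

set_option autoImplicit false

namespace Pool.Agent.Helper42.VR

open Finset BlocksAux

/-- The patterns on four coordinates: at most one entry `-1`. -/
def pat4 (o : Option (Fin 4)) (k : Fin 4) : ℝ := o.elim 1 (fun i => if k = i then -1 else 1)

theorem pat4_sign (o : Option (Fin 4)) (k : Fin 4) : pat4 o k = 1 ∨ pat4 o k = -1 := by
  rcases o with _ | i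
  · exact Or.inl rfl
  · show (if k = i then (-1 : ℝ) else 1) = 1 ∨ (if k = i then (-1 : ℝ) else 1) = -1
    split_ifs
    · exact Or.inr rfl
    · exact Or.inl rfl

theorem pat4_inner (o o' : Option (Fin 4)) :
    0 ≤ pat4 o 0 * pat4 o' 0 + pat4 o 1 * pat4 o' 1 + pat4 o 2 * pat4 o' 2 +
      pat4 o 3 * pat4 o' 3 := by
  rcases o with _ | i <;> rcases o' with _ | j
  · show (0 : ℝ) ≤ 1 * 1 + 1 * 1 + 1 * 1 + 1 * 1
    norm_num
  · fin_cases j <;> simp [pat4] <;> norm_num
  · fin_cases i <;> simp [pat4] <;> norm_num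
  · fin_cases i <;> fin_cases j <;> simp [pat4] <;> norm_num

theorem pat4_two (o : Option (Fin 4)) : 0 ≤ pat4 o 0 + pat4 o 1 := by
  rcases o with _ | i
  · show (0 : ℝ) ≤ 1 + 1
    norm_num
  · fin_cases i <;> simp [pat4] <;> norm_num

theorem pat4_sum (A : ℝ) (m : Fin 4 → ℝ) (k : Fin 4) :
    ∑ o : Option (Fin 4), o.elim (A - ∑ i, m i) m * pat4 o k = A - 2 * m k := by
  rw [Fintype.sum_option]
  simp only [pat4, Option.elim_none, Option.elim_some, mul_one]
  have h1 : ∀ i : Fin 4, m i * (if k = i then (-1 : ℝ) else 1) =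
      m i - 2 * (if k = i then m i else 0) := by
    intro i
    split_ifs <;> ring
  simp only [h1]
  rw [Finset.sum_sub_distrib, ← Finset.mul_sum, Finset.sum_ite_eq Finset.univ k]
  simp only [Finset.mem_univ, if_true]
  ring

theorem sum_pairs3 {P : Type} [Fintype P] (p : Fin 3 → ℝ) (r : P × Fin 2 → ℝ) (p' : Fin 3 → ℝ)
    (r' : P × Fin 2 → ℝ) :
    ∑ o : Fin 3 ⊕ (P × Fin 2), Sum.elim p r o * Sum.elim p' r' o =
      p 0 * p' 0 + p 1 * p' 1 + p 2 * p' 2 +
        ∑ i, (r (i, 0) * r' (i, 0) + r (i, 1) * r' (i, 1)) := by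
  rw [Fintype.sum_sum_type]
  simp only [Sum.elim_inl, Sum.elim_inr]
  rw [Fin.sum_univ_three, Fintype.sum_prod_type]
  simp only [Fin.sum_univ_two]

/-- **Three special coordinates**, the others in pairs. -/
theorem cov_specials {N N' : ℕ} (hT : T N) (hT' : T N') {ι : Type} [Fintype ι]
    (hι : Fintype.card ι + 5 = N) (hι' : Fintype.card ι + 1 = N') (e : Fin 3 → ℝ)
    (p q : Fin 3 ⊕ ι → ℝ) {A : ℝ} (hA0 : 0 < A) (hA1 : A ≤ 1) (he : ∀ i, e i ≤ 1)
    (hA : p (Sum.inl 0) + q (Sum.inl 0) = 2 * A) (hU : ∀ i, |p i + q i| ≤ 2 * A)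
    (hV : ∀ i, |p i - q i| ≤ 2 * (1 - A)) (h3 : 1 - e 2 ≤ 2 * (1 - A))
    (hs : 2 * ((1 - e 0) + (1 - e 1)) ≤ p (Sum.inl 1) + q (Sum.inl 1) +
      (p (Sum.inl 2) + q (Sum.inl 2))) :
    Cov (Fin 3 ⊕ ((Fin 3 ⊕ ι) × Fin 2)) 1
      (Sum.elim e (fun z => (![p z.1, q z.1] : Fin 2 → ℝ) z.2)) := by
  -- the family of the sums
  obtain ⟨J, iJ, w, v, hw1, hw2, hw3, hw4, hw5⟩ := hT' ι hι'
    (fun i => (p (Sum.inr i) + q (Sum.inr i)) / (2 * A)) (fun i => by
      rw [abs_div, abs_of_pos (by linarith : (0 : ℝ) < 2 * A)]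
      exact (div_le_one (by linarith)).2 (hU (Sum.inr i)))
  -- the family of the differences
  obtain ⟨K, iK, w', v', hv1, hv2, hv3, hv4, hv5⟩ := scov_of_T hT
    (κ := Option (Fin 3 ⊕ ι)) (by
      rw [Fintype.card_option, Fintype.card_sum, Fintype.card_fin]; omega)
    (a := 1 - A) (y := fun o => o.elim (e 2 - A) (fun i => (p i - q i) / 2))
    (by linarith) (by
      rintro (_ | i)
      · show |e 2 - A| ≤ 1 - A
        rw [abs_le]
        constructor <;> linarith [he 2]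
      · show |(p i - q i) / 2| ≤ 1 - A
        rw [abs_div, abs_of_pos (by norm_num : (0 : ℝ) < 2)]
        linarith [hV i])
  have hv6 : ∑ j, w' j * v' j none = e 2 - A := hv4 none
  have hv7 : ∀ i, ∑ j, w' j * v' j (some i) = (p i - q i) / 2 := fun i => hv4 (some i)
  -- the weights of the four patterns
  let m : Fin 4 → ℝ := ![(1 - e 0) / 2, (1 - e 1) / 2,
    (A - (p (Sum.inl 1) + q (Sum.inl 1)) / 2) / 2, (A - (p (Sum.inl 2) + q (Sum.inl 2)) / 2) / 2]
  have m0 : m 0 = (1 - e 0) / 2 := rfl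
  have m1 : m 1 = (1 - e 1) / 2 := rfl
  have m2 : m 2 = (A - (p (Sum.inl 1) + q (Sum.inl 1)) / 2) / 2 := rfl
  have m3 : m 3 = (A - (p (Sum.inl 2) + q (Sum.inl 2)) / 2) / 2 := rfl
  have hm : ∀ i, 0 ≤ m i := by
    intro i
    have b1 := (abs_le.1 (hU (Sum.inl 1))).2
    have b2 := (abs_le.1 (hU (Sum.inl 2))).2
    fin_cases i
    · show 0 ≤ (1 - e 0) / 2
      linarith [he 0]
    · show 0 ≤ (1 - e 1) / 2
      linarith [he 1]
    · show 0 ≤ (A - (p (Sum.inl 1) + q (Sum.inl 1)) / 2) / 2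
      linarith
    · show 0 ≤ (A - (p (Sum.inl 2) + q (Sum.inl 2)) / 2) / 2
      linarith
  have hms : ∑ i, m i ≤ A := by
    rw [Fin.sum_univ_four, m0, m1, m2, m3]
    linarith
  let W : Option (Fin 4) → ℝ := fun o => o.elim (A - ∑ i, m i) m
  have hW0 : ∀ o, 0 ≤ W o := by
    rintro (_ | i)
    · show 0 ≤ A - ∑ i, m i
      linarith
    · exact hm i
  have hW1 : ∑ o, W o = A := by
    rw [Fintype.sum_option]
    show A - ∑ i, m i + ∑ i, m i = A
    ring
  have hW2 : ∀ k, ∑ o, W o * pat4 o k = A - 2 * m k := fun k => pat4_sum A m k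
  -- the vectors
  let u : Option (Fin 4) → J → (Fin 3 ⊕ ι) → ℝ := fun o j =>
    Sum.elim ![1, pat4 o 2, pat4 o 3] (v j)
  let VU : Option (Fin 4) × J → Fin 3 ⊕ ((Fin 3 ⊕ ι) × Fin 2) → ℝ := fun x =>
    Sum.elim ![pat4 x.1 0, pat4 x.1 1, 1] (fun z => u x.1 x.2 z.1)
  let VV : K → Fin 3 ⊕ ((Fin 3 ⊕ ι) × Fin 2) → ℝ := fun j =>
    Sum.elim ![1, 1, v' j none] (fun z => (![v' j (some z.1), -v' j (some z.1)] :
      Fin 2 → ℝ) z.2)
  have sgn : ∀ {x y : ℝ}, (x = 1 ∨ x = -1) → (y = 1 ∨ y = -1) → -1 ≤ x * y ∧ x * y ≤ 1 := by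
    intro x y hx hy
    rcases hx with rfl | rfl <;> rcases hy with rfl | rfl <;> norm_num
  have sg1 : ∀ {x : ℝ}, (x = 1 ∨ x = -1) → -1 ≤ x := by
    intro x hx
    rcases hx with rfl | rfl <;> norm_num
  have neg : ∀ {x : ℝ}, (x = 1 ∨ x = -1) → (-x = 1 ∨ -x = -1) := by
    intro x hx
    rcases hx with rfl | rfl <;> norm_num
  have hu3 : ∀ o j i, u o j i = 1 ∨ u o j i = -1 := by
    rintro o j (i | i)
    · fin_cases i
      · exact Or.inl rfl
      · exact pat4_sign o 2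
      · exact pat4_sign o 3
    · exact hw3 j i
  have UU : ∀ x x' : Option (Fin 4) × J, W x.1 * w x.2 ≠ 0 → W x'.1 * w x'.2 ≠ 0 →
      -1 ≤ ∑ o, VU x o * VU x' o := by
    rintro ⟨o, j⟩ ⟨o', j'⟩ hj hj'
    have h1 := hw5 j j' (right_ne_zero_of_mul hj) (right_ne_zero_of_mul hj')
    have h2 := pat4_inner o o'
    have h0 : ∑ i, VU (o, j) i * VU (o', j') i = pat4 o 0 * pat4 o' 0 + pat4 o 1 * pat4 o' 1 +
        1 * 1 + ∑ i, (u o j i * u o' j' i + u o j i * u o' j' i) := sum_pairs3 _ _ _ _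
    have h4 : ∑ i, (u o j i * u o' j' i + u o j i * u o' j' i) =
        2 * (1 * 1 + pat4 o 2 * pat4 o' 2 + pat4 o 3 * pat4 o' 3) +
          2 * ∑ i, v j i * v j' i := by
      rw [Fintype.sum_sum_type, Fin.sum_univ_three, Finset.mul_sum]
      have e1 : ∀ i : ι, u o j (Sum.inr i) * u o' j' (Sum.inr i) +
          u o j (Sum.inr i) * u o' j' (Sum.inr i) = 2 * (v j i * v j' i) := fun i => by
        show v j i * v j' i + v j i * v j' i = _
        ring
      simp only [e1]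
      have e2 : u o j (Sum.inl 0) = 1 := rfl
      have e3 : u o' j' (Sum.inl 0) = 1 := rfl
      have e4 : u o j (Sum.inl 1) = pat4 o 2 := rfl
      have e5 : u o' j' (Sum.inl 1) = pat4 o' 2 := rfl
      have e6 : u o j (Sum.inl 2) = pat4 o 3 := rfl
      have e7 : u o' j' (Sum.inl 2) = pat4 o' 3 := rfl
      rw [e2, e3, e4, e5, e6, e7]
      ring
    have g1 := (sgn (pat4_sign o 0) (pat4_sign o' 0)).2
    have g2 := (sgn (pat4_sign o 1) (pat4_sign o' 1)).2
    rw [h0, h4]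
    linarith
  have VVi : ∀ j j', w' j ≠ 0 → w' j' ≠ 0 → -1 ≤ ∑ o, VV j o * VV j' o := by
    intro j j' hj hj'
    have h1 := hv5 j j' hj hj'
    rw [Fintype.sum_option] at h1
    have h2 := sgn (hv3 j none) (hv3 j' none)
    have h0 : ∑ o, VV j o * VV j' o = 1 * 1 + 1 * 1 + v' j none * v' j' none +
        ∑ i : Fin 3 ⊕ ι, (v' j (some i) * v' j' (some i) + -v' j (some i) * -v' j' (some i)) :=
      sum_pairs3 _ _ _ _
    have h4 : ∑ i : Fin 3 ⊕ ι,
        (v' j (some i) * v' j' (some i) + -v' j (some i) * -v' j' (some i)) =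
        2 * ∑ i : Fin 3 ⊕ ι, v' j (some i) * v' j' (some i) := by
      rw [Finset.mul_sum]
      exact Finset.sum_congr rfl fun i _ => by ring
    rw [h0, h4]
    linarith
  have UV : ∀ x j', -1 ≤ ∑ o, VU x o * VV j' o := by
    rintro ⟨o, j⟩ j'
    have h1 := pat4_two o
    have h2 := sg1 (hv3 j' none)
    have h0 : ∑ i, VU (o, j) i * VV j' i = pat4 o 0 * 1 + pat4 o 1 * 1 + 1 * v' j' none +
        ∑ i : Fin 3 ⊕ ι, (u o j i * v' j' (some i) + u o j i * -v' j' (some i)) :=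
      sum_pairs3 _ _ _ _
    have h4 : ∑ i : Fin 3 ⊕ ι, (u o j i * v' j' (some i) + u o j i * -v' j' (some i)) = 0 :=
      Finset.sum_eq_zero fun i _ => by ring
    rw [h0, h4]
    linarith
  have swap : ∀ (a b : Fin 3 ⊕ ((Fin 3 ⊕ ι) × Fin 2) → ℝ), ∑ o, a o * b o = ∑ o, b o * a o :=
    fun a b => Finset.sum_congr rfl fun o _ => mul_comm _ _
  -- double sums
  have dbl : ∀ (F : Option (Fin 4) → ℝ) (G : J → ℝ),
      ∑ x : Option (Fin 4) × J, W x.1 * w x.2 * (F x.1 * G x.2) =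
        (∑ o, W o * F o) * ∑ j, w j * G j := by
    intro F G
    rw [Fintype.sum_prod_type, Finset.sum_mul_sum]
    exact Finset.sum_congr rfl fun o _ => Finset.sum_congr rfl fun j _ => by ring
  have dW : ∑ x : Option (Fin 4) × J, W x.1 * w x.2 = A := by
    have h := dbl (fun _ => 1) (fun _ => 1)
    simp only [mul_one] at h
    rw [h, hW1, hw2, mul_one]
  have dP : ∀ k, ∑ x : Option (Fin 4) × J, W x.1 * w x.2 * pat4 x.1 k = A - 2 * m k := by
    intro k
    have h := dbl (fun o => pat4 o k) (fun _ => 1)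
    simp only [mul_one] at h
    rw [h, hW2, hw2, mul_one]
  have dV : ∀ i, ∑ x : Option (Fin 4) × J, W x.1 * w x.2 * v x.2 i =
      (p (Sum.inr i) + q (Sum.inr i)) / 2 := by
    intro i
    have h := dbl (fun _ => 1) (fun j => v j i)
    simp only [mul_one, one_mul] at h
    rw [h, hW1, hw4]
    field_simp
  have dU : ∀ i, ∑ x : Option (Fin 4) × J, W x.1 * w x.2 * u x.1 x.2 i = (p i + q i) / 2 := by
    rintro (i | i)
    · fin_cases i
      · show ∑ x : Option (Fin 4) × J, W x.1 * w x.2 * 1 = (p (Sum.inl 0) + q (Sum.inl 0)) / 2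
        simp only [mul_one]
        rw [dW, hA]
        ring
      · show ∑ x : Option (Fin 4) × J, W x.1 * w x.2 * pat4 x.1 2 =
          (p (Sum.inl 1) + q (Sum.inl 1)) / 2
        rw [dP, m2]
        ring
      · show ∑ x : Option (Fin 4) × J, W x.1 * w x.2 * pat4 x.1 3 =
          (p (Sum.inl 2) + q (Sum.inl 2)) / 2
        rw [dP, m3]
        ring
    · exact dV i
  have ng : ∀ (i : Fin 3 ⊕ ι), ∑ j, w' j * -v' j (some i) = -((p i - q i) / 2) := by
    intro i
    rw [← hv7 i, ← Finset.sum_neg_distrib]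
    exact Finset.sum_congr rfl fun j _ => by ring
  refine ⟨(Option (Fin 4) × J) ⊕ K, inferInstance,
    Sum.elim (fun x => W x.1 * w x.2) w', Sum.elim VU VV, ?_, ?_, ?_, ?_, ?_⟩
  · rintro (x | j)
    · exact mul_nonneg (hW0 _) (hw1 _)
    · exact hv1 j
  · rw [Fintype.sum_sum_type]
    simp only [Sum.elim_inl, Sum.elim_inr]
    rw [dW, hv2]
    ring
  · rintro (x | j) (i | ⟨i, k⟩)
    · fin_cases i
      · exact pat4_sign x.1 0
      · exact pat4_sign x.1 1
      · exact Or.inl rfl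
    · exact hu3 x.1 x.2 i
    · fin_cases i
      · exact Or.inl rfl
      · exact Or.inl rfl
      · exact hv3 j none
    · fin_cases k
      · exact hv3 j (some i)
      · exact neg (hv3 j (some i))
  · rintro (i | ⟨i, k⟩)
    · rw [Fintype.sum_sum_type]
      simp only [Sum.elim_inl, Sum.elim_inr]
      fin_cases i
      · show ∑ x : Option (Fin 4) × J, W x.1 * w x.2 * pat4 x.1 0 + ∑ j, w' j * 1 = e 0
        simp only [mul_one]
        rw [dP, hv2, m0]
        ring
      · show ∑ x : Option (Fin 4) × J, W x.1 * w x.2 * pat4 x.1 1 + ∑ j, w' j * 1 = e 1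
        simp only [mul_one]
        rw [dP, hv2, m1]
        ring
      · show ∑ x : Option (Fin 4) × J, W x.1 * w x.2 * 1 + ∑ j, w' j * v' j none = e 2
        simp only [mul_one]
        rw [dW, hv6]
        ring
    · rw [Fintype.sum_sum_type]
      simp only [Sum.elim_inl, Sum.elim_inr]
      fin_cases k
      · show ∑ x : Option (Fin 4) × J, W x.1 * w x.2 * u x.1 x.2 i +
          ∑ j, w' j * v' j (some i) = p i
        rw [dU, hv7]
        ring
      · show ∑ x : Option (Fin 4) × J, W x.1 * w x.2 * u x.1 x.2 i +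
          ∑ j, w' j * -v' j (some i) = q i
        rw [dU, ng]
        ring
  · rintro (x | j) (x' | j') hj hj'
    · exact UU x x' hj hj'
    · exact UV x j'
    · exact le_trans (UV x' j) (le_of_eq (swap _ _))
    · exact VVi j j' hj hj'

/-- Eight special coordinates. -/
theorem match_eight {N : ℕ} (hN : 1 ≤ N) (hT : T N) {x : ℕ → ℝ} (h0 : ∀ n, 0 ≤ x n)
    (h1 : ∀ n, x n ≤ 1) (hs : 4 ≤ x 1 + x 2 + x 3 + x 4 + x 5 + x 6 + x 7 + x 8) :
    Cov (Fin (N + 7)) 1 (fun i => x (i + 1)) := by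
  have habs : ∀ n, |x n| ≤ 1 := fun n => by rw [abs_of_nonneg (h0 n)]; exact h1 n
  have h2 : Cov (Fin 8) 0 (fun i => x (i + 1)) := by
    have hsum : 2 * ((2 : ℕ) : ℝ) ≤ ∑ i : Fin 8, x ((i : ℕ) + 1) := by
      simp only [Fin.sum_univ_succ, Fin.sum_univ_zero]
      simp
      linarith
    obtain ⟨J, hJ, w, v, h1, h2, h3, h4⟩ := mem_convexHull_iff_exists_fintype.1
      (pat_hull93 (κ := Fin 8) (m := 2) (by rw [Fintype.card_fin]) (fun i => habs _) hsum)
    refine ⟨J, hJ, w, v, h1, h2, fun j => (h3 j).1, fun i => ?_, fun j j' _ _ => ?_⟩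
    · have h5 : (∑ i, w i • v i) i = x ((i : ℕ) + 1) := congrFun h4 i
      show ∑ j, w j * v j i = x ((i : ℕ) + 1)
      rw [← h5]
      simp
    · have h5 : ∀ i, v j i + v j' i - 1 ≤ v j i * v j' i := by
        intro i
        rcases (h3 j).1 i with h | h <;> rcases (h3 j').1 i with h' | h' <;> rw [h, h'] <;>
          norm_num
      have h6 := Finset.sum_le_sum fun i (_ : i ∈ univ) => h5 i
      rw [Finset.sum_sub_distrib, Finset.sum_add_distrib] at h6
      simp only [Finset.sum_const, Finset.card_univ, Fintype.card_fin, nsmul_eq_mul,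
        mul_one] at h6
      have g1 := (h3 j).2
      have g2 := (h3 j').2
      push_cast at h6 g1 g2
      linarith
  have h3 : Cov (Fin (N - 1)) 1 (fun i => x (9 + i)) :=
    hT (Fin (N - 1)) (by rw [Fintype.card_fin]; omega) _ fun i => habs _
  have h4 := cov_sum93 h2 h3
  rw [zero_add] at h4
  refine cov_of_pos (α := Fin 8 ⊕ Fin (N - 1))
    (Sum.elim (fun i => (i : ℕ) + 1) (fun i => 9 + (i : ℕ))) ?_ ?_ ?_ ?_ ?_
  · rintro (a | a) (b | b) hab
    · have h5 : (a : ℕ) + 1 = b + 1 := hab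
      rw [Fin.ext (by omega : (a : ℕ) = b)]
    · have h5 : (a : ℕ) + 1 = 9 + b := hab
      have := a.2
      omega
    · have h5 : 9 + (a : ℕ) = b + 1 := hab
      have := b.2
      omega
    · have h5 : 9 + (a : ℕ) = 9 + b := hab
      rw [Fin.ext (by omega : (a : ℕ) = b)]
  · rintro (a | a)
    · show 1 ≤ (a : ℕ) + 1
      omega
    · show 1 ≤ 9 + (a : ℕ)
      omega
  · rintro (a | a)
    · show (a : ℕ) + 1 ≤ N + 7
      have := a.2
      omega
    · show 9 + (a : ℕ) ≤ N + 7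
      have := a.2
      omega
  · rw [Fintype.card_sum, Fintype.card_fin, Fintype.card_fin]
    omega
  · have h5 : (fun a : Fin 8 ⊕ Fin (N - 1) =>
        x (Sum.elim (fun i : Fin 8 => (i : ℕ) + 1) (fun i : Fin (N - 1) => 9 + (i : ℕ)) a)) =
        Sum.elim (fun i : Fin 8 => x ((i : ℕ) + 1)) (fun i : Fin (N - 1) => x (9 + (i : ℕ))) := by
      funext a
      rcases a with a | a <;> rfl
    rw [h5]
    exact h4

/-- The matching of `x₂, …, x₆` with `x₇, …, x₁₁`. -/
theorem match_five {N : ℕ} (hT : T N) (hN : 6 ≤ N) {x : ℕ → ℝ} (hx : Antitone x)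
    (h0 : ∀ n, 0 ≤ x n) (h1 : ∀ n, x n ≤ 1) (h : x 2 + x 3 + x 7 ≤ 2) :
    Cov (Fin (2 * N - 1)) 1 (fun i => x (i + 1)) := by
  refine cov_match hT (by omega) hx h0 h1 (fun t => if t < 5 then t + 2 else 2 * t + 2)
    (fun t => if t < 5 then t + 7 else 2 * t + 3) ?_ ?_ ?_
  · intro t ht
    beta_reduce
    split_ifs <;> omega
  · intro t t' ht ht'
    beta_reduce
    split_ifs <;> omega
  · intro t t' ht ht'
    beta_reduce
    by_cases c1 : t < 5 <;> by_cases c2 : t' < 5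
    · simp only [c1, c2, if_true]
      have e1 : x (t + 7) ≤ x 7 := hx (by omega)
      have e2 := h0 (t' + 7)
      rcases eq_or_ne t t' with ht0 | ht0
      · subst ht0
        linarith [h1 (t + 2)]
      · have e3 : x (t + 2) + x (t' + 2) ≤ x 2 + x 3 := by
          rcases lt_or_gt_of_ne ht0 with h2 | h2
          · have := hx (show 2 ≤ t + 2 by omega)
            have := hx (show 3 ≤ t' + 2 by omega)
            linarith
          · have := hx (show 3 ≤ t + 2 by omega)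
            have := hx (show 2 ≤ t' + 2 by omega)
            linarith
        linarith
    · simp only [c1, c2, if_true, if_false]
      have e1 : x (t + 7) ≤ x 7 := hx (by omega)
      have e2 : x (t + 2) ≤ x 2 := hx (by omega)
      have e3 : x (2 * t' + 2) ≤ x 3 := hx (by omega)
      have e4 := h0 (2 * t' + 3)
      linarith
    · simp only [c1, c2, if_true, if_false]
      have e1 : x (2 * t + 2) ≤ x 3 := hx (by omega)
      have e2 : x (2 * t + 3) ≤ x 7 := hx (by omega)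
      have e3 : x (t' + 2) ≤ x 2 := hx (by omega)
      have e4 := h0 (t' + 7)
      linarith
    · simp only [c1, c2, if_false]
      have e1 : x (2 * t + 2) ≤ x 3 := hx (by omega)
      have e2 : x (2 * t + 3) ≤ x 7 := hx (by omega)
      have e3 : x (2 * t' + 2) ≤ x 2 := hx (by omega)
      have e4 := h0 (2 * t' + 3)
      linarith

/-- Three special coordinates, consecutive pairs. -/
theorem match_specials {N : ℕ} (hN : 6 ≤ N) (hT : T N) (hT' : T (N - 4)) {x : ℕ → ℝ}
    (hx : Antitone x) (h0 : ∀ n, 0 ≤ x n) (h1 : ∀ n, x n ≤ 1) (hpos : 0 < x 4)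
    (hs : 2 * ((1 - x 1) + (1 - x 2)) ≤ x 6 + x 7 + (x 8 + x 9))
    (hc : ∀ k, 2 ≤ k → k + 1 ≤ N → x 4 + x 5 + x (2 * k) ≤ 2 + x (2 * k + 1))
    (h3 : x 4 + x 5 ≤ 1 + x 3) :
    Cov (Fin (2 * N - 1)) 1 (fun i => x (i + 1)) := by
  let P : ℕ → ℕ := fun i => 4 + 2 * i
  let idx : Fin 3 ⊕ Fin (N - 5) → ℕ := Sum.elim (fun i => (i : ℕ)) (fun i => 3 + (i : ℕ))
  have hidx : ∀ i, idx i + 3 ≤ N := by
    rintro (i | i)
    · have := i.2
      show (i : ℕ) + 3 ≤ N
      omega
    · have := i.2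
      show 3 + (i : ℕ) + 3 ≤ N
      omega
  have hinj : ∀ i j, idx i = idx j → i = j := by
    rintro (i | i) (j | j) hij
    · have h5 : (i : ℕ) = j := hij
      rw [Fin.ext h5]
    · have h5 : (i : ℕ) = 3 + j := hij
      have := i.2
      omega
    · have h5 : 3 + (i : ℕ) = j := hij
      have := j.2
      omega
    · have h5 : 3 + (i : ℕ) = 3 + j := hij
      rw [Fin.ext (by omega : (i : ℕ) = j)]
  have h5 := h0 5
  have h2 := cov_specials hT hT' (ι := Fin (N - 5)) (by rw [Fintype.card_fin]; omega)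
    (by rw [Fintype.card_fin]; omega) ![x 1, x 2, x 3] (fun i => x (4 + 2 * idx i))
    (fun i => x (5 + 2 * idx i)) (A := (x 4 + x 5) / 2) (by linarith)
    (by linarith [h1 4, h1 5]) (by
      intro i
      fin_cases i
      · exact h1 1
      · exact h1 2
      · exact h1 3)
    (by
      show x 4 + x 5 = 2 * ((x 4 + x 5) / 2)
      ring)
    (by
      intro i
      have e1 : x (4 + 2 * idx i) ≤ x 4 := hx (by omega)
      have e2 : x (5 + 2 * idx i) ≤ x 5 := hx (by omega)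
      rw [abs_of_nonneg (add_nonneg (h0 _) (h0 _))]
      linarith)
    (by
      intro i
      have e1 : x (5 + 2 * idx i) ≤ x (4 + 2 * idx i) := hx (by omega)
      have e2 := hc (2 + idx i) (by omega) (by have := hidx i; omega)
      rw [show 2 * (2 + idx i) = 4 + 2 * idx i by ring,
        show 4 + 2 * idx i + 1 = 5 + 2 * idx i by ring] at e2
      rw [abs_of_nonneg (sub_nonneg.2 e1)]
      linarith)
    (by
      show 1 - x 3 ≤ 2 * (1 - (x 4 + x 5) / 2)
      linarith)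
    (by
      show 2 * ((1 - x 1) + (1 - x 2)) ≤ x 6 + x 7 + (x 8 + x 9)
      exact hs)
  refine cov_of_pos (α := Fin 3 ⊕ ((Fin 3 ⊕ Fin (N - 5)) × Fin 2))
    (Sum.elim (fun i => (i : ℕ) + 1) (fun z => 4 + 2 * idx z.1 + (z.2 : ℕ))) ?_ ?_ ?_ ?_ ?_
  · rintro (a | ⟨a1, a2⟩) (b | ⟨b1, b2⟩) hab
    · have h6 : (a : ℕ) + 1 = b + 1 := hab
      rw [Fin.ext (by omega : (a : ℕ) = b)]
    · have h6 : (a : ℕ) + 1 = 4 + 2 * idx b1 + b2 := hab
      have := a.2
      omega
    · have h6 : 4 + 2 * idx a1 + (a2 : ℕ) = b + 1 := hab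
      have := b.2
      omega
    · have h6 : 4 + 2 * idx a1 + (a2 : ℕ) = 4 + 2 * idx b1 + b2 := hab
      have := a2.2
      have := b2.2
      have e1 : idx a1 = idx b1 := by omega
      have e2 : (a2 : ℕ) = b2 := by omega
      rw [hinj _ _ e1, Fin.ext e2]
  · rintro (a | ⟨a1, a2⟩)
    · show 1 ≤ (a : ℕ) + 1
      omega
    · show 1 ≤ 4 + 2 * idx a1 + (a2 : ℕ)
      omega
  · rintro (a | ⟨a1, a2⟩)
    · show (a : ℕ) + 1 ≤ 2 * N - 1
      have := a.2
      omega
    · show 4 + 2 * idx a1 + (a2 : ℕ) ≤ 2 * N - 1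
      have := a2.2
      have := hidx a1
      omega
  · rw [Fintype.card_sum, Fintype.card_prod, Fintype.card_sum, Fintype.card_fin,
      Fintype.card_fin, Fintype.card_fin]
    omega
  · have h6 : (fun a : Fin 3 ⊕ ((Fin 3 ⊕ Fin (N - 5)) × Fin 2) =>
        x (Sum.elim (fun i : Fin 3 => (i : ℕ) + 1)
          (fun z : (Fin 3 ⊕ Fin (N - 5)) × Fin 2 => 4 + 2 * idx z.1 + (z.2 : ℕ)) a)) =
        Sum.elim ![x 1, x 2, x 3] (fun z => (![x (4 + 2 * idx z.1), x (5 + 2 * idx z.1)] :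
          Fin 2 → ℝ) z.2) := by
      funext a
      rcases a with a | ⟨a1, a2⟩
      · fin_cases a <;> rfl
      · fin_cases a2
        · rfl
        · show x (4 + 2 * idx a1 + 1) = x (5 + 2 * idx a1)
          congr 1
          omega
    rw [h6]
    exact h2

/-- **Doubling**: `T N`, `T (N - 4)` and `T (2 N - 8)` imply `T (2 N)`. -/
theorem T_double' {N : ℕ} (hN : 6 ≤ N) (hT : T N) (hT4 : T (N - 4)) (hT8 : T (2 * N - 8)) :
    T (2 * N) := by
  refine T_of_sorted (by omega) fun x hx h0 h1 => ?_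
  rcases le_or_gt 4 (x 1 + x 2 + x 3 + x 4 + x 5 + x 6 + x 7 + x 8) with h8 | h8
  · have h2 := match_eight (by omega) hT8 h0 h1 h8
    rw [show 2 * N - 8 + 7 = 2 * N - 1 by omega] at h2
    exact h2
  rcases le_or_gt (x 2 + x 3 + x 7) 2 with h7 | h7
  · exact match_five hT hN hx h0 h1 h7
  -- the largest gap
  obtain ⟨m, hm, hmax⟩ := Finset.exists_max_image (Finset.Icc 1 (N - 1))
    (fun k => x (2 * k) - x (2 * k + 1)) ⟨1, by rw [Finset.mem_Icc]; omega⟩
  rw [Finset.mem_Icc] at hm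
  have hc : ∀ k, 1 ≤ k → k + 1 ≤ N →
      x (2 * k) - x (2 * k + 1) ≤ x (2 * m) - x (2 * m + 1) := fun k hk hk' =>
    hmax k (by rw [Finset.mem_Icc]; omega)
  rcases le_or_gt (x 2 + x 3 + (x (2 * m) - x (2 * m + 1))) 2 with hstd | hstd
  · exact match_std hT (by omega) hx h0 h1 (fun k hk hk' => by
      have := hc k hk (by omega)
      linarith)
  have a12 : x 2 ≤ x 1 := hx (by norm_num)
  have a23 : x 3 ≤ x 2 := hx (by norm_num)
  have a34 : x 4 ≤ x 3 := hx (by norm_num)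
  have a45 : x 5 ≤ x 4 := hx (by norm_num)
  have a56 : x 6 ≤ x 5 := hx (by norm_num)
  have a67 : x 7 ≤ x 6 := hx (by norm_num)
  have a78 : x 8 ≤ x 7 := hx (by norm_num)
  have a1 := h1 1
  have b7 := h0 7
  have b8 := h0 8
  have b9 := h0 9
  have bu := h0 (2 * m + 1)
  have hm2 : 2 ≤ m := by
    by_contra h
    have h2 : m = 1 := by omega
    subst h2
    norm_num at hstd
    linarith
  have key : x 4 + x 5 + (x (2 * m) - x (2 * m + 1)) ≤ 2 := by
    by_contra hk
    push Not at hk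
    rcases Nat.lt_or_ge m 4 with hm4 | hm4
    · obtain rfl | rfl : m = 2 ∨ m = 3 := by omega
      · norm_num at hk
        linarith
      · norm_num at hk hstd
        linarith
    · have e1 : x (2 * m) ≤ x 8 := hx (by omega)
      linarith
  refine match_specials hN hT hT4 hx h0 h1 (by linarith) (by linarith) (fun k hk hk' => ?_) ?_
  · have := hc k (by omega) hk'
    linarith
  · linarith

theorem T_forty : T 40 := T_double' (N := 20) (by norm_num) T_twenty (T_two_pow 4) (T_two_pow 5)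

/-- **All `20 * 2 ^ k`.** -/
theorem T_five (k : ℕ) : T (20 * 2 ^ k) := by
  have key : ∀ k, T (20 * 2 ^ k) ∧ T (20 * 2 ^ (k + 1)) := by
    intro k
    induction k with
    | zero => exact ⟨T_twenty, T_forty⟩
    | succ k ih =>
      refine ⟨ih.2, ?_⟩
      have h1 : T (2 * (10 * 2 ^ k)) := by
        have h := ih.1
        rwa [show 20 * 2 ^ k = 2 * (10 * 2 ^ k) by ring] at h
      have h2 : T (4 * (10 * 2 ^ k)) := by
        have h := ih.2
        rwa [show 20 * 2 ^ (k + 1) = 4 * (10 * 2 ^ k) by ring] at h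
      have h3 := T_step (a := 10 * 2 ^ k) (by
        right
        have : 1 ≤ 2 ^ k := Nat.one_le_two_pow
        omega) h1 h2
      rwa [show 8 * (10 * 2 ^ k) = 20 * 2 ^ (k + 1 + 1) by ring] at h3
  exact (key k).1

end Pool.Agent.Helper42.VR
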