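import Pool.Agent.Helper76.VR.Double
import Pool.Agent.Helper96.VR.FrameData

/-!
# `T 12`, `T 20` and `T (12 * 2 ^ k)` (block F4)
-/

set_option autoImplicit false

namespace Pool.Agent.Helper42.VR

theorem T_twelve : T 12 :=
  T_of_frame (by norm_num) T_eight fun _ hx h0 h1 hs => cov_frame12 hx h0 h1 hs

theorem T_twenty : T 20 :=
  T_of_frame (by norm_num) (T_two_pow 4) fun _ hx h0 h1 hs => cov_frame20 hx h0 h1 hs

theorem T_three (k : ℕ) : T (12 * 2 ^ k) := T_three_of T_twelve T_twenty k

end Pool.Agent.Helper42.VR
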